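import Pool.Agent.H53.GC.Targets

/-!
# Consistency of the labels
-/

set_option autoImplicit false

namespace Pool.Agent.H55.GC

open Pool.Agent.H53.GC Pool.Agent.H58.SF
open Classical

/-- equal letters of the pattern -/
theorem pat_eq (r : Fin 3) (l l' : Fin 6) (h : kS r l = kS r l') {X : Type} (a b : X) :
    pat r a b l = pat r a b l' := by
  revert h
  unfold kS
  fin_cases r <;> fin_cases l <;> fin_cases l' <;> simp [pat]

/-- the three shapes -/
theorem alt {X : Type} {k : ℕ} (lb : Fin k → Fin 3) (fb : Prop) (r : Fin 3)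
    (p : Fin 6 → Prs k → X)
    (hp : (∃ a b : Prs k → X, ∀ l, p l = pat r a b l) ∨ ((∀ i, lb i ≠ 1) ∧ ¬ fb)) (i : Fin k) :
    strat fb r lb i (fun a => p a (vsK i)) = id ∨
    (strat fb r lb i (fun a => p a (vsK i)) = kS r ∧ ∃ a b : Prs k → X, ∀ l, p l = pat r a b l) ∨
    (strat fb r lb i (fun a => p a (vsK i)) = (fun _ => 0) ∧ lb i = 2 ∧
      ∀ l l', p l (vsK i) = p l' (vsK i)) := by
  unfold strat
  by_cases h0 : lb i = 0
  · rw [if_pos h0]
    exact Or.inl rfl
  rw [if_neg h0]
  by_cases h1 : lb i = 1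
  · rw [if_pos h1]
    rcases hp with hp | hp
    · exact Or.inr (Or.inl ⟨rfl, hp⟩)
    · exact absurd h1 (hp.1 i)
  rw [if_neg h1]
  have h2 : lb i = 2 := by
    generalize lb i = z at h0 h1 ⊢
    fin_cases z
    · exact absurd rfl h0
    · exact absurd rfl h1
    · rfl
  by_cases h3 : ∀ l l', p l (vsK i) = p l' (vsK i)
  · rw [if_pos h3]
    exact Or.inr (Or.inr ⟨rfl, h2, h3⟩)
  rw [if_neg h3]
  by_cases h4 : fb
  · rw [if_pos h4]
    rcases hp with hp | hp
    · exact Or.inr (Or.inl ⟨rfl, hp⟩)
    · exact absurd h4 hp.2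
  · rw [if_neg h4]
    exact Or.inl rfl

theorem pf_CNS : T_CNS := by
  intro X k J lb fb r p hlb hp
  have ha := alt lb fb r p hp
  have hS : ∀ (l l' : Fin 6), (∃ a b : Prs k → X, ∀ l, p l = pat r a b l) → kS r l = kS r l' →
      p l = p l' := by
    rintro l l' ⟨a, b, hab⟩ h
    rw [hab l, hab l']
    exact pat_eq r l l' h a b
  refine ⟨?_, ?_, ?_⟩
  · intro i _ l l' h
    rcases ha i with hi | ⟨hi, hab⟩ | ⟨hi, _, h2⟩
    · rw [hi] at h
      rw [show l = l' from h]
    · rw [hi] at h
      rw [hS l l' hab h]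
    · exact h2 l l'
  · intro i j _ _ hij l l' h h'
    rcases ha i with hi | ⟨hi, hab⟩ | ⟨hi, hi2, _⟩
    · rw [hi] at h
      rw [show l = l' from h]
    · rw [hi] at h
      rw [hS l l' hab h]
    · rcases ha j with hj | ⟨hj, hab⟩ | ⟨hj, hj2, _⟩
      · rw [hj] at h'
        rw [show l = l' from h']
      · rw [hj] at h'
        rw [hS l l' hab h']
      · exact absurd (hlb i j hi2 hj2) hij.ne
  · intro m q s hm hq _ hpair
    -- an index with the shape `id`
    by_cases hid : ∃ a, strat fb r lb (q a) (fun c => p c (vsK (q a))) = id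
    · obtain ⟨a, hida⟩ := hid
      refine ⟨s a, fun c => ?_⟩
      rcases lt_trichotomy a c with h | h | h
      · obtain ⟨l, h1, h2⟩ := hpair a c h
        rw [hida] at h1
        rw [← show l = s a from h1]
        exact h2
      · subst h
        rw [hida]
        rfl
      · obtain ⟨l, h1, h2⟩ := hpair c a h
        rw [hida] at h2
        rw [← show l = s a from h2]
        exact h1
    · -- no `id`; an index with the shape `kS r`
      have hS' : ∀ a, strat fb r lb (q a) (fun c => p c (vsK (q a))) = kS r ∨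
          (strat fb r lb (q a) (fun c => p c (vsK (q a))) = (fun _ => 0) ∧ lb (q a) = 2) := by
        intro a
        rcases ha (q a) with hi | ⟨hi, _⟩ | ⟨hi, hi2, _⟩
        · exact absurd ⟨a, hi⟩ hid
        · exact Or.inl hi
        · exact Or.inr ⟨hi, hi2⟩
      have hex : ∃ b, strat fb r lb (q b) (fun c => p c (vsK (q b))) = kS r := by
        by_contra hno
        have h0 := (hS' ⟨0, by omega⟩).resolve_left fun h => hno ⟨_, h⟩
        have h1 := (hS' ⟨1, by omega⟩).resolve_left fun h => hno ⟨_, h⟩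
        have := hq.injective (hlb _ _ h0.2 h1.2)
        simp at this
      obtain ⟨b, hb⟩ := hex
      -- another index
      obtain ⟨c0, hc0⟩ : ∃ c0 : Fin m, c0 ≠ b := by
        by_cases h : b = ⟨0, by omega⟩
        · refine ⟨⟨1, by omega⟩, ?_⟩
          rw [h]
          simp
        · exact ⟨⟨0, by omega⟩, fun h' => h h'.symm⟩
      have hl : ∀ c, c ≠ b → ∃ l, strat fb r lb (q b) (fun c => p c (vsK (q b))) l = s b ∧
          strat fb r lb (q c) (fun d => p d (vsK (q c))) l = s c := by
        intro c hc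
        rcases lt_or_gt_of_ne hc with h | h
        · obtain ⟨l, h1, h2⟩ := hpair c b h
          exact ⟨l, h2, h1⟩
        · obtain ⟨l, h1, h2⟩ := hpair b c h
          exact ⟨l, h1, h2⟩
      obtain ⟨l, hl1, _⟩ := hl c0 hc0
      rw [hb] at hl1
      refine ⟨l, fun c => ?_⟩
      by_cases hcb : c = b
      · subst hcb
        rw [hb]
        exact hl1
      obtain ⟨l', h1, h2⟩ := hl c hcb
      rw [hb] at h1
      rcases hS' c with h | ⟨h, _⟩
      · rw [h] at h2 ⊢
        have : kS r l = kS r l' := by rw [hl1, h1]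
        rw [this]
        exact h2
      · rw [h] at h2 ⊢
        exact h2

end Pool.Agent.H55.GC
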